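import Pool.Agent.Y215.CT.All

/-!
# The average of the `p`-torsion of class groups of imaginary quadratic fields: a lower bound

For a prime `p ≥ 5` the sum of `#Cl(K)[p] - 1` over the imaginary quadratic fields `K` with
`|disc K| ≤ X` is at least `c X ^ (1 / 2 + min (1 / 4, 2 / p)) / (log X) ^ 5`.

Method: integers `m = a b`, `a` and `b` primes of size `R`, and `n` with `4 m ^ p - n ^ 2 = d q ^ 2`
divisible by the square of a prime of size `Q`. Since `m` is a product of two primes of a fixed set,
half of the `m` are squares modulo every prime (pigeonhole principle), and no character sums are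
needed; the representations `n ^ 2 + d q ^ 2 = 4 m ^ p` of a number with two prime factors are
bounded in number, so that the squarefree part `d` is large for most of the pairs `(m, n)`.
-/

set_option autoImplicit false

namespace Pool.Agent.Results.MP_16912e_nt.AverageTorsionLowerBound

open NumberField Pool.Agent.Y215.CT

/-- For every prime `p ≥ 5` there are `c > 0` and `X0` such that for all real `X ≥ X0` the sum of
`#Cl(K)[p] - 1` over the set `ImQuad X` of the imaginary quadratic fields `K ⊂ ℂ` with
`|disc K| ≤ X` is at least `c X ^ (1 / 2 + min (1 / 4, 2 / p)) / (log X) ^ 5`. -/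
theorem result (p : ℕ) (hp : p.Prime) (hp5 : 5 ≤ p) :
    ∃ c : ℝ, 0 < c ∧ ∃ X0 : ℝ, ∀ X : ℝ, X0 ≤ X →
      c * X ^ (1 / 2 + min (1 / 4) (2 / (p : ℝ)) : ℝ) / Real.log X ^ 5 ≤
        ∑ᶠ K ∈ ImQuad X, ((Nat.card {x : ClassGroup (𝓞 K) // x ^ p = 1} : ℝ) - 1) :=
  torsion_all p hp hp5

end Pool.Agent.Results.MP_16912e_nt.AverageTorsionLowerBound
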