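import Pool.Agent.Y159.QS.Fin

set_option autoImplicit false

/-!
# Torsion in the class groups of quadratic fields, on average over short intervals

For all quadratic fields, real and imaginary, the mean value (and the moments of order `r ≤ 2 l / 7`)
of the number of elements of the class group killed by `l` is bounded with the exponent
`1 / 2 - 3 / (2 l + 2)`, and similarly for discriminants in short intervals.
-/

namespace Pool.Agent.Results.MP_16912e_nt.QuadraticShortIntervals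

open NumberField

/-- Let `l, r ≥ 1` be natural numbers and `ε > 0`.  There is a constant `C` such that:

* for all real numbers `1 ≤ H ≤ X` with `(H √X) ^ (3 r / (l + r)) ≤ H` and all quadratic fields `K_D`
  (real or imaginary) of discriminant `D`, where `D` runs through a finite set `S` with
  `X ≤ |D| ≤ X + H`,
  `∑_{D ∈ S} |Cl(K_D)[l]| ^ r ≤ C X ^ ε H (√X / (H √X) ^ (1 / (l + r))) ^ r`;
* if `7 r ≤ 2 l`, then for `X ≥ 1` and quadratic fields with `|D| ≤ X`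
  `∑_{D ∈ S} |Cl(K_D)[l]| ^ r ≤ C X ^ (1 + r / 2 - 3 r / (2 (l + r)) + ε)`. -/
theorem result (l r : ℕ) (hl : 1 ≤ l) (hr : 1 ≤ r) (ε : ℝ) (hε : 0 < ε) : ∃ C : ℝ, 0 < C ∧
    (∀ X H : ℝ, 1 ≤ H → H ≤ X → (H * √X) ^ (3 * (r : ℝ) / ((l : ℝ) + r)) ≤ H →
      ∀ (S : Finset ℤ) (K : ℤ → Type) [∀ D, Field (K D)] [∀ D, NumberField (K D)],
      (∀ D ∈ S, (X ≤ |(D : ℝ)| ∧ |(D : ℝ)| ≤ X + H) ∧ Module.finrank ℚ (K D) = 2 ∧
        NumberField.discr (K D) = D) →
      ∑ D ∈ S, (Nat.card {c : ClassGroup (𝓞 (K D)) // c ^ l = 1} : ℝ) ^ r ≤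
        C * X ^ ε * H * (√X / (H * √X) ^ (1 / ((l : ℝ) + r))) ^ r) ∧
    (7 * r ≤ 2 * l → ∀ X : ℝ, 1 ≤ X →
      ∀ (S : Finset ℤ) (K : ℤ → Type) [∀ D, Field (K D)] [∀ D, NumberField (K D)],
      (∀ D ∈ S, |(D : ℝ)| ≤ X ∧ Module.finrank ℚ (K D) = 2 ∧ NumberField.discr (K D) = D) →
      ∑ D ∈ S, (Nat.card {c : ClassGroup (𝓞 (K D)) // c ^ l = 1} : ℝ) ^ r ≤
        C * X ^ (1 + (r : ℝ) / 2 - 3 * (r : ℝ) / (2 * ((l : ℝ) + r)) + ε)) := by
  obtain ⟨C1, hC1, h1⟩ := Pool.Agent.Y159.QS.short' l r hl hr ε hε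
  by_cases hrl : 7 * r ≤ 2 * l
  · obtain ⟨C2, hC2, h2⟩ := Pool.Agent.Y159.QS.full l r hr hrl ε hε
    refine ⟨max C1 C2, lt_max_of_lt_left hC1, ?_, ?_⟩
    · intro X H hH hHX hc S K _ _ hS
      refine (h1 X H hH hHX hc S K hS).trans ?_
      have hX : 0 < X := by linarith
      have h0 : 0 ≤ X ^ ε * H * (√X / (H * √X) ^ (1 / ((l : ℝ) + r))) ^ r := by positivity
      calc C1 * X ^ ε * H * (√X / (H * √X) ^ (1 / ((l : ℝ) + r))) ^ r
          = C1 * (X ^ ε * H * (√X / (H * √X) ^ (1 / ((l : ℝ) + r))) ^ r) := by ring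
        _ ≤ max C1 C2 * (X ^ ε * H * (√X / (H * √X) ^ (1 / ((l : ℝ) + r))) ^ r) := by
            gcongr; exact le_max_left _ _
        _ = _ := by ring
    · intro _ X hX S K _ _ hS
      refine (h2 X hX S K hS).trans ?_
      gcongr
      exact le_max_right _ _
  · exact ⟨C1, hC1, h1, fun h => absurd h hrl⟩

end Pool.Agent.Results.MP_16912e_nt.QuadraticShortIntervals
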