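import Pool.Agent.Y159.TQ.Fin
import Pool.Agent.Y542.TQ.Sup
import Pool.Agent.Y971.TQ.Rep

set_option autoImplicit false

/-!
# Torsion in the class groups of quadratic fields in thin families

Let `f(t) = a t² + b t + c` be a quadratic polynomial with integer coefficients, `a ≠ 0` and
`b² - 4 a c ≠ 0`.  For the quadratic fields (real or imaginary) of discriminant `f(t)` the mean value
(and the moments of order `r ≤ l / 5`) of the number of elements of the class group killed by `l` is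
bounded with the exponent `1 / 2 - 1 / (l + 1)` of the discriminant, and similarly for `t` in short
intervals.
-/

namespace Pool.Agent.Results.MP_16912e_nt.ThinQuadraticFamilies

open NumberField

/-- Let `f(t) = a t² + b t + c` with integers `a ≠ 0`, `b`, `c` with `b² - 4 a c ≠ 0`, let `l, r ≥ 1`
be natural numbers and `ε > 0`.  There is a constant `C` such that:

* for all real numbers `1 ≤ H ≤ N` with `(H N) ^ (3 r / (l + r)) ≤ H` and all quadratic fields `K_t`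
  (real or imaginary) of discriminant `f(t)`, where `t` runs through a finite set `S` of integers with
  `N ≤ |t| ≤ N + H`,
  `∑_{t ∈ S} |Cl(K_t)[l]| ^ r ≤ C N ^ ε H (N / (H N) ^ (1 / (l + r))) ^ r`;
* if `5 r ≤ l`, then for `T ≥ 1` and quadratic fields `K_t` of discriminant `f(t)` with `|t| ≤ T`
  `∑_{t ∈ S} |Cl(K_t)[l]| ^ r ≤ C T ^ (1 + r - 2 r / (l + r) + ε)`. -/
theorem result (a b c : ℤ) (ha : a ≠ 0) (hdisc : b ^ 2 - 4 * a * c ≠ 0) (l r : ℕ) (hl : 1 ≤ l)
    (hr : 1 ≤ r) (ε : ℝ) (hε : 0 < ε) : ∃ C : ℝ, 0 < C ∧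
    (∀ N H : ℝ, 1 ≤ H → H ≤ N → (H * N) ^ (3 * (r : ℝ) / ((l : ℝ) + r)) ≤ H →
      ∀ (S : Finset ℤ) (K : ℤ → Type) [∀ t, Field (K t)] [∀ t, NumberField (K t)],
      (∀ t ∈ S, (N ≤ |(t : ℝ)| ∧ |(t : ℝ)| ≤ N + H) ∧ Module.finrank ℚ (K t) = 2 ∧
        NumberField.discr (K t) = a * t ^ 2 + b * t + c) →
      ∑ t ∈ S, (Nat.card {x : ClassGroup (𝓞 (K t)) // x ^ l = 1} : ℝ) ^ r ≤
        C * N ^ ε * H * (N / (H * N) ^ (1 / ((l : ℝ) + r))) ^ r) ∧
    (5 * r ≤ l → ∀ T : ℝ, 1 ≤ T →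
      ∀ (S : Finset ℤ) (K : ℤ → Type) [∀ t, Field (K t)] [∀ t, NumberField (K t)],
      (∀ t ∈ S, |(t : ℝ)| ≤ T ∧ Module.finrank ℚ (K t) = 2 ∧
        NumberField.discr (K t) = a * t ^ 2 + b * t + c) →
      ∑ t ∈ S, (Nat.card {x : ClassGroup (𝓞 (K t)) // x ^ l = 1} : ℝ) ^ r ≤
        C * T ^ (1 + (r : ℝ) - 2 * (r : ℝ) / ((l : ℝ) + r) + ε)) := by
  have hrep := Pool.Agent.Y971.TQ.rep
  have hsup := Pool.Agent.Y542.TQ.sup
  obtain ⟨C1, hC1, h1⟩ :=
    Pool.Agent.Y159.TQ.short_t' hrep hsup a b c ha hdisc l r hl hr ε hε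
  by_cases hrl : 5 * r ≤ l
  · obtain ⟨C2, hC2, h2⟩ := Pool.Agent.Y159.TQ.full_t hrep hsup a b c ha hdisc l r hr hrl ε hε
    refine ⟨max C1 C2, lt_max_of_lt_left hC1, ?_, ?_⟩
    · intro N H hH hHN hc S K _ _ hS
      refine (h1 N H hH hHN hc S K hS).trans ?_
      have hN : 0 < N := by linarith
      have hH0 : 0 < H := by linarith
      have h0 : 0 ≤ N ^ ε * H * (N / (H * N) ^ (1 / ((l : ℝ) + r))) ^ r := by positivity
      calc C1 * N ^ ε * H * (N / (H * N) ^ (1 / ((l : ℝ) + r))) ^ r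
          = C1 * (N ^ ε * H * (N / (H * N) ^ (1 / ((l : ℝ) + r))) ^ r) := by ring
        _ ≤ max C1 C2 * (N ^ ε * H * (N / (H * N) ^ (1 / ((l : ℝ) + r))) ^ r) := by
            gcongr; exact le_max_left _ _
        _ = _ := by ring
    · intro _ T hT S K _ _ hS
      refine (h2 T hT S K hS).trans ?_
      gcongr
      exact le_max_right _ _
  · exact ⟨C1, hC1, h1, fun h => absurd h hrl⟩

end Pool.Agent.Results.MP_16912e_nt.ThinQuadraticFamilies
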